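import Pool.Agent.Z704.Defs
import Pool.Agent.Y664.Z.Sela2
import Pool.Agent.Y687.N.Desc2

/-!
# The first isogeny Selmer set for twists by `pr P * m`, `m` an integer of any sign
-/

set_option autoImplicit false
set_option linter.style.haveILetI false

namespace Pool.Agent.Y812.Z

open Finset Pool.Agent.Z701
open Pool.Agent.Z700 (pr Yd lres)
open Pool.Agent.Y700 (PC)
open Pool.Agent.Y814.BSD14 Pool.Agent.Y809.BSD14
open Pool.Agent.Y664.Z
open Pool.Agent.Y687.N (HypK xrZ RtZ J_emptyZ sp_sq root1)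

/-- a split prime does not divide the other factors -/
theorem nd_split {m : ℤ} {P : Finset ℕ} (H : HypK m P) {p : ℕ} (hp : p ∈ P) :
    ¬ (p : ℤ) ∣ ((pr (P.erase p) : ℕ) : ℤ) * m := by
  intro h0
  have hpp := (H.sp p hp).1
  have hpP : Prime (p : ℤ) := Nat.prime_iff_prime_int.1 hpp
  rcases hpP.dvd_or_dvd h0 with h1 | h1
  · exact prime_not_dvd_pr hpp (K := P.erase p)
      (fun q hq => (H.sp q (Finset.mem_of_mem_erase hq)).1) (Finset.notMem_erase p P)
      (by exact_mod_cast h1)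
  · exact H.m0 hp ((ZMod.intCast_zmod_eq_zero_iff_dvd _ _).2 h1)

/-- The frame of the descent: the local conditions away from `J` and in `J` imply that no prime of
`P` divides `z`. -/
theorem frameZ {m : ℤ} {P : Finset ℕ} (H : HypK m P) {c1 c2 : ℤ} {q0 : ℕ}
    (hc2 : ∀ q : ℕ, q.Prime → q ≠ q0 → ¬ (q : ℤ) ∣ c2) (hq0P : q0 ∉ P)
    (hrt : ∀ q : ℕ, q.Prime → (q : ℤ) ∣ m → ∀ M r : ZMod q, M ≠ 0 →
      r ^ 2 + c1 * M * r + c2 * M ^ 2 ≠ 0)
    (hsq : ∀ p ∈ P, IsSquare ((c2 : ℤ) : ZMod p)) (hq0 : ∀ p ∈ P, IsSquare (q0 : ZMod p)) {z : ℤ}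
    (hz : Squarefree z)
    (h : ∀ (l : ℕ) [Fact l.Prime], PC (c1 * ((pr P : ℤ) * m)) (c2 * ((pr P : ℤ) * m) ^ 2) l z)
    (hR : ∀ p ∈ P, ∀ z' : ℤ, z = p * z' →
      (IsSquare ((z' : ZMod p) * ((pr (P.erase p) : ℕ) : ZMod p)) ↔ ¬ RtZ m p)) :
    z.natAbs = 1 ∨ z.natAbs = q0 := by
  classical
  have hP := H.sp
  set J := P.filter (fun p : ℕ => (p : ℤ) ∣ z) with hJdef
  have hJP : J ⊆ P := Finset.filter_subset _ _
  have hJm : ∀ p, p ∈ J ↔ p ∈ P ∧ (p : ℤ) ∣ z := fun p => Finset.mem_filter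
  have hprP : ∀ q ∈ P, q.Prime := fun q hq => (hP q hq).1
  have hprJ : ∀ q ∈ J, q.Prime := fun q hq => hprP q (hJP hq)
  -- the primes dividing `z`
  have hpr : ∀ q : ℕ, q.Prime → (q : ℤ) ∣ z → q = q0 ∨ q ∈ P := by
    intro q hq hqz
    by_contra hcon
    push Not at hcon
    have : Fact q.Prime := ⟨hq⟩
    have hqP : Prime (q : ℤ) := Nat.prime_iff_prime_int.1 hq
    by_cases hqS : (q : ℤ) ∣ m
    · obtain ⟨m', hm'⟩ := hqS
      have hM' : ¬ (q : ℤ) ∣ (((pr P : ℕ) : ℤ) * m') := by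
        refine not_dvd_of_sqf hq H.sqf (z := (pr P : ℤ) * m) ?_
        rw [hm']
        ring
      have hB : ¬ (q : ℤ) ∣ c2 * (((pr P : ℕ) : ℤ) * m') ^ 2 := by
        intro h0
        rcases hqP.dvd_or_dvd h0 with h0 | h0
        · exact hc2 q hq hcon.1 h0
        · exact hM' (hqP.dvd_of_dvd_pow h0)
      have h1 := h q
      rw [hm', show c1 * (((pr P : ℕ) : ℤ) * ((q : ℤ) * m')) =
          q * (c1 * (((pr P : ℕ) : ℤ) * m')) by ring,
        show c2 * (((pr P : ℕ) : ℤ) * ((q : ℤ) * m')) ^ 2 =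
          (q : ℤ) ^ 2 * (c2 * (((pr P : ℕ) : ℤ) * m') ^ 2) by ring] at h1
      obtain ⟨r, hr, -, -⟩ := root_of_PC hz hqz hB h1
      have hM0 : ((((pr P : ℕ) : ℤ) * m' : ℤ) : ZMod q) ≠ 0 := by
        intro h0
        exact hM' ((ZMod.intCast_zmod_eq_zero_iff_dvd _ _).1 h0)
      refine hrt q hq ⟨m', hm'⟩ _ r hM0 ?_
      rw [← hr]
      push_cast
      ring
    · refine not_dvd_of_PC hz ?_ (h q) hqz
      intro h0
      rcases hqP.dvd_or_dvd h0 with h0 | h0
      · exact hc2 q hq hcon.1 h0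
      · rcases hqP.dvd_or_dvd (hqP.dvd_of_dvd_pow h0) with h1 | h1
        · exact prime_not_dvd_pr hq hprP hcon.2 (by exact_mod_cast h1)
        · exact hqS h1
  -- the decomposition
  have hdvd : ((pr J : ℕ) : ℤ) ∣ z := by
    rw [Int.natCast_dvd]
    unfold pr
    refine Finset.prod_primes_dvd _ (fun q hq => (hprJ q hq).prime) fun q hq => ?_
    exact Int.natCast_dvd.1 ((hJm q).1 hq).2
  obtain ⟨u, hu⟩ := hdvd
  have huq : ∀ q : ℕ, q.Prime → (q : ℤ) ∣ u → q = q0 := by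
    intro q hq hqu
    have hqz : (q : ℤ) ∣ z := by
      rw [hu]
      exact hqu.mul_left _
    rcases hpr q hq hqz with h1 | h1
    · exact h1
    · exfalso
      have hqJ : q ∈ J := (hJm q).2 ⟨h1, hqz⟩
      have h2 : z = q * (((pr (J.erase q) : ℕ) : ℤ) * u) := by
        rw [hu, pr_erase hqJ]
        push_cast
        ring
      exact not_dvd_of_sqf hq hz h2 (hqu.mul_left _)
  have hud : u ∣ z := Dvd.intro_left _ hu.symm
  have huu : u.natAbs = 1 ∨ u.natAbs = q0 := only_prime (hz.squarefree_of_dvd hud) huq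
  have husq : ∀ p ∈ P, IsSquare (u : ZMod p) := fun p hp =>
    unit_sq (hprP p hp) (hP p hp).2.1 (hq0 p hp) u huu
  have hu0 : ∀ p ∈ P, (u : ZMod p) ≠ 0 := by
    intro p hp h0
    have h1 := (ZMod.intCast_zmod_eq_zero_iff_dvd u p).1 h0
    have h2 := huq p (hprP p hp) h1
    exact hq0P (h2 ▸ hp)
  have hJ : J = ∅ := by
    refine J_emptyZ hP H.odd hJP ?_ ?_
    · intro p hp
      rw [Finset.mem_sdiff] at hp
      have f : Fact p.Prime := ⟨hprP p hp.1⟩
      have hpz : ¬ (p : ℤ) ∣ z := fun h0 => hp.2 ((hJm p).2 ⟨hp.1, h0⟩)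
      have h1 := h p
      have e1 : ((pr P : ℕ) : ℤ) * m = p * (((pr (P.erase p) : ℕ) : ℤ) * m) := by
        rw [pr_erase hp.1]
        push_cast
        ring
      rw [e1] at h1
      have hpp := nd_split H hp.1
      have hpc2 : ¬ (p : ℤ) ∣ c2 := hc2 p (hprP p hp.1) (by
        rintro rfl
        exact hq0P hp.1)
      obtain ⟨r, hr⟩ := sq_of_PC hpz hpp hpc2 (hsq p hp.1) h1
      obtain ⟨s, hs⟩ := husq p hp.1
      have hs0 : s ≠ 0 := by
        rintro rfl
        apply hu0 p hp.1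
        rw [hs]
        ring
      refine ⟨r / s, ?_⟩
      rw [div_mul_div_comm, eq_div_iff (mul_ne_zero hs0 hs0), ← hs, ← hr, hu]
      push_cast
      ring
    · intro p hp
      obtain ⟨hpP, z', hz'⟩ := (hJm p).1 hp
      have f : Fact p.Prime := ⟨hprP p hpP⟩
      rw [← hR p hpP z' hz']
      have hp0 : (p : ℤ) ≠ 0 := by
        have := (hprP p hpP).ne_zero
        exact_mod_cast this
      have e1 : z' = ((pr (J.erase p) : ℕ) : ℤ) * u := by
        apply mul_left_cancel₀ hp0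
        rw [← hz', hu, pr_erase hp]
        push_cast
        ring
      have e2 : (z' : ZMod p) * ((pr (P.erase p) : ℕ) : ZMod p) =
          (u : ZMod p) * (((pr (J.erase p) : ℕ) : ZMod p) * ((pr (J.erase p) : ℕ) : ZMod p)) *
            ((pr (P \ J) : ℕ) : ZMod p) := by
        rw [e1, pr_erase_sdiff hJP hp]
        push_cast
        ring
      have hJ0 : ((pr (J.erase p) : ℕ) : ZMod p) ≠ 0 := cast_pr_ne (hprP p hpP)
        (fun q hq => hprJ q (Finset.mem_of_mem_erase hq)) (Finset.notMem_erase p J)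
      obtain ⟨s, hs⟩ := husq p hpP
      have hs0 : s ≠ 0 := by
        rintro rfl
        apply hu0 p hpP
        rw [hs]
        ring
      rw [e2]
      constructor
      · rintro ⟨r, hr⟩
        refine ⟨s * ((pr (J.erase p) : ℕ) : ZMod p) * r, ?_⟩
        rw [hr, hs]
        ring
      · rintro ⟨r, hr⟩
        refine ⟨r / (s * ((pr (J.erase p) : ℕ) : ZMod p)), ?_⟩
        have h3 := mul_ne_zero hs0 hJ0
        rw [div_mul_div_comm, eq_div_iff (mul_ne_zero h3 h3), ← hr, hs]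
        ring
  have hz1 : z = u := by
    rw [hu, hJ]
    simp [pr]
  rw [hz1]
  exact huu

/-- the local condition at a split prime dividing `z`: a root of `x² + c1 m x + c2 m²` is a square
if and only if `z' * pr (P.erase p)` is -/
theorem local_iff {m : ℤ} {P : Finset ℕ} (H : HypK m P) {c1 c2 : ℤ} {p : ℕ} (hp : p ∈ P)
    (hc : ¬ (p : ℤ) ∣ c2) {z z' : ℤ} (hz : Squarefree z) (hz' : z = p * z')
    (h : ∀ (l : ℕ) [Fact l.Prime], PC (c1 * ((pr P : ℤ) * m)) (c2 * ((pr P : ℤ) * m) ^ 2) l z)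
    (hroot : ∀ x : ZMod p, x ^ 2 + c1 * (m : ZMod p) * x + c2 * (m : ZMod p) ^ 2 = 0 →
      (IsSquare x ↔ ¬ RtZ m p)) :
    IsSquare ((z' : ZMod p) * ((pr (P.erase p) : ℕ) : ZMod p)) ↔ ¬ RtZ m p := by
  have hpp := (H.sp p hp).1
  have f : Fact p.Prime := ⟨hpp⟩
  have hq := nd_split H hp
  have hQ0 : ((pr (P.erase p) : ℕ) : ZMod p) ≠ 0 := cast_pr_ne hpp (K := P.erase p)
    (fun q hq => (H.sp q (Finset.mem_of_mem_erase hq)).1) (Finset.notMem_erase p P)
  have e1 : ((pr P : ℕ) : ℤ) * m = p * (((pr (P.erase p) : ℕ) : ℤ) * m) := by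
    rw [pr_erase hp]
    push_cast
    ring
  have hpP : Prime (p : ℤ) := Nat.prime_iff_prime_int.1 hpp
  have hB : ¬ (p : ℤ) ∣ c2 * (((pr (P.erase p) : ℕ) : ℤ) * m) ^ 2 := by
    intro h0
    rcases hpP.dvd_or_dvd h0 with h0 | h0
    · exact hc h0
    · exact hq (hpP.dvd_of_dvd_pow h0)
  have h1 := h p
  rw [e1, show c1 * (p * (((pr (P.erase p) : ℕ) : ℤ) * m)) =
      p * (c1 * (((pr (P.erase p) : ℕ) : ℤ) * m)) by ring,
    show c2 * (p * (((pr (P.erase p) : ℕ) : ℤ) * m)) ^ 2 =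
      (p : ℤ) ^ 2 * (c2 * (((pr (P.erase p) : ℕ) : ℤ) * m) ^ 2) by ring] at h1
  obtain ⟨r, hr, hr0, hr2⟩ := root_of_PC hz ⟨z', hz'⟩ hB h1
  obtain ⟨t, ht⟩ := hr2 z' hz'
  push_cast at hr
  have hz0 : (z' : ZMod p) ≠ 0 := by
    rw [Ne, ZMod.intCast_zmod_eq_zero_iff_dvd]
    exact not_dvd_of_sqf hpp hz hz'
  have h5 := hroot (r / ((pr (P.erase p) : ℕ) : ZMod p)) (by
    field_simp
    linear_combination hr)
  rw [← h5]
  constructor
  · rintro ⟨s, hs⟩
    refine ⟨t * s / (z' * ((pr (P.erase p) : ℕ) : ZMod p)), ?_⟩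
    have hn := mul_ne_zero hz0 hQ0
    rw [div_mul_div_comm, div_eq_div_iff hQ0 (mul_ne_zero hn hn)]
    linear_combination (z' : ZMod p) * ((pr (P.erase p) : ℕ) : ZMod p) ^ 2 * ht +
      t * t * ((pr (P.erase p) : ℕ) : ZMod p) * hs
  · rintro ⟨s, hs⟩
    have hrs : r = s * s * ((pr (P.erase p) : ℕ) : ZMod p) := by
      rw [← hs]
      field_simp
    have hs0 : s ≠ 0 := by
      rintro rfl
      apply hr0
      rw [hrs]
      ring
    refine ⟨t / s, ?_⟩
    rw [div_mul_div_comm, eq_div_iff (mul_ne_zero hs0 hs0), ← ht, hrs]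
    ring

/-- SELA: the first isogeny Selmer set -/
theorem t_SELA : Pool.Agent.Z704.S_SELA := by
  intro m P H z hz hz0 h
  have key := frameZ (c1 := 13) (c2 := 128) (q0 := 2) H (fun q hq n2 => nd128 hq n2) (by
      intro h0
      have := (H.sp 2 h0).2.1
      omega) (by
      intro q hqp hqm M r hM hr
      have f : Fact q.Prime := ⟨hqp⟩
      obtain ⟨n2, n7, hs7, hs2⟩ := H.two q hqp hqm
      apply hs7
      have n7' : (7 : ZMod q) ≠ 0 := by
        exact_mod_cast cast_ne hqp (by norm_num : (7 : ℕ).Prime) n7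
      refine ⟨(2 * r + 13 * M) / (7 * M), ?_⟩
      push_cast at hr
      field_simp
      linear_combination -4 * hr) (by
      intro p hp
      obtain ⟨s, hs⟩ := two_sq (H.sp p hp).1 (H.sp p hp).2.1
      refine ⟨8 * s, ?_⟩
      push_cast
      linear_combination 64 * hs) (by
      intro p hp
      exact_mod_cast two_sq (H.sp p hp).1 (H.sp p hp).2.1) hz h ?_
  · omega
  · intro p hp z' hz'
    have p8 := (H.sp p hp).2.1
    refine local_iff (c1 := 13) (c2 := 128) H hp (nd128 (H.sp p hp).1 (by rintro rfl; omega)) hz hz'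
      h ?_
    intro x hx
    exact root1 (H.sp p hp) (H.m0 hp) x (by push_cast at hx; exact hx)

end Pool.Agent.Y812.Z
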